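import Mathlib

set_option autoImplicit false

/-!
# The edge-boundary conjecture fails for every minimal order `d ≥ 3`

The example: `G = (ℤ/2)^k × ℤ/d × ℤ/m`, `m` odd and large, `S` the set of the elements
`(e_i, 0, 1)` (of order `2m`) and of `(0, 1, 0)` (of order `d`), and `A = G`, `γ = 1`. The elements of
order two of `S` are hidden: `m (e_i, 0, 1) = (e_i, 0, 0)`, as `m` is odd. So `S` generates
`G`, the minimal order is `d`, the rank is at least `k`, the edge boundary is empty, and
`|G| = 2^k d m < 4^{(1-1/d) k}` for large `k`.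
-/

namespace Pool.Agent.Results.MP_039f74_co.Disproof

/-- The edge boundary: the number of pairs `(a, s)` in `A × S` with `a + s ∉ A`. -/
def edgeBoundary {G : Type*} [AddCommGroup G] [DecidableEq G] (S A : Finset G) : ℕ :=
  ((A ×ˢ S).filter (fun p => p.1 + p.2 ∉ A)).card

/-- The group of the example. -/
abbrev Gr (k d m : ℕ) : Type := (Fin k → ZMod 2) × ZMod d × ZMod m

/-- The rank of the group is at least `k`. -/
theorem rank_ge (k d m : ℕ) [NeZero d] [NeZero m] : k ≤ AddGroup.rank (Gr k d m) := by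
  obtain ⟨T, hT1, hT2⟩ := AddGroup.rank_spec (Gr k d m)
  classical
  set T' : Finset (Fin k → ZMod 2) := T.image Prod.fst with hT'
  have hspan : Submodule.span (ZMod 2) (T' : Set (Fin k → ZMod 2)) = ⊤ := by
    rw [eq_top_iff]
    intro v _
    have hv : ((v, 0, 0) : Gr k d m) ∈ AddSubgroup.closure (T : Set (Gr k d m)) := by
      rw [hT2]; trivial
    have h2 : ∀ g ∈ AddSubgroup.closure (T : Set (Gr k d m)),
        g.1 ∈ Submodule.span (ZMod 2) (T' : Set (Fin k → ZMod 2)) := by
      intro g hg
      induction hg using AddSubgroup.closure_induction with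
      | mem x hx =>
        apply Submodule.subset_span
        rw [hT', Finset.coe_image]
        exact ⟨x, hx, rfl⟩
      | zero => exact Submodule.zero_mem _
      | add x y _ _ hx hy => exact Submodule.add_mem _ hx hy
      | neg x _ hx => exact Submodule.neg_mem _ hx
    exact h2 _ hv
  have h1 : (T' : Set (Fin k → ZMod 2)).finrank (ZMod 2) ≤ T'.card :=
    finrank_span_finset_le_card T'
  rw [Set.finrank, hspan, finrank_top, Module.finrank_fin_fun] at h1
  calc k ≤ T'.card := h1
    _ ≤ T.card := Finset.card_image_le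
    _ = _ := hT1

/-- For every `d ≥ 3` the conjectured implication fails for some finite abelian group `G` and some
generating set `S` with minimal element order `d`; in the example `A = G` and `γ = 1`. -/
theorem result (d : ℕ) (hd : 3 ≤ d) :
    ∃ (G : Type) (_ : AddCommGroup G) (_ : Fintype G) (_ : DecidableEq G) (S A : Finset G)
      (γ : ℝ), AddSubgroup.closure (S : Set G) = ⊤ ∧
      IsLeast (addOrderOf '' (S : Set G)) d ∧ 0 < γ ∧ γ ≤ 1 ∧ A.Nonempty ∧
      (edgeBoundary S A : ℝ) ≤ (1 - γ) * (AddGroup.rank G : ℝ) * (A.card : ℝ) ∧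
      (A.card : ℝ) < (4 : ℝ) ^ ((1 - 1 / (d : ℝ)) * γ * (AddGroup.rank G : ℝ)) := by
  classical
  set m : ℕ := 2 * d + 1 with hm
  set k : ℕ := 3 * (d * m) with hk
  have : NeZero d := ⟨by omega⟩
  have : NeZero m := ⟨by omega⟩
  have : NeZero k := ⟨by rw [hk]; positivity⟩
  have hm1 : Fact (1 < m) := ⟨by omega⟩
  have hd1 : Fact (1 < d) := ⟨by omega⟩
  set E : Fin k → Gr k d m := fun i => (Pi.single i 1, 0, 1) with hE
  set S : Finset (Gr k d m) := insert (0, 1, 0) (Finset.univ.image E) with hS
  have hEmem : ∀ i, E i ∈ AddSubgroup.closure (S : Set (Gr k d m)) := by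
    intro i
    apply AddSubgroup.subset_closure
    rw [hS]
    simp
  have hmodd : ((m : ℕ) : ZMod 2) = 1 := by
    rw [hm]; push_cast
    have : (2 : ZMod 2) = 0 := by decide
    rw [this]; ring
  have hmE : ∀ i, m • E i = (Pi.single i 1, 0, 0) := by
    intro i
    rw [hE]
    ext j
    · simp only [Prod.smul_fst, Pi.smul_apply]
      rw [nsmul_eq_mul, hmodd, one_mul]
    · simp
    · simp
  have hclos : AddSubgroup.closure (S : Set (Gr k d m)) = ⊤ := by
    rw [eq_top_iff]
    rintro ⟨v, b, c⟩ -
    have h1 : ((v, 0, 0) : Gr k d m) ∈ AddSubgroup.closure (S : Set (Gr k d m)) := by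
      have : ((v, 0, 0) : Gr k d m) = ∑ i, (v i).val • (m • E i) := by
        simp only [hmE]
        ext j
        · simp only [Prod.fst_sum, Prod.smul_fst, Finset.sum_apply, Pi.smul_apply]
          rw [Finset.sum_eq_single j]
          · simp
          · intro i _ hij
            simp [Ne.symm hij]
          · simp
        · simp [Prod.snd_sum]
        · simp [Prod.snd_sum]
      rw [this]
      exact AddSubgroup.sum_mem _ fun i _ => AddSubgroup.nsmul_mem _
        (AddSubgroup.nsmul_mem _ (hEmem i) _) _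
    have h2 : ((0, b, 0) : Gr k d m) ∈ AddSubgroup.closure (S : Set (Gr k d m)) := by
      have h3 : ((0, 1, 0) : Gr k d m) ∈ AddSubgroup.closure (S : Set (Gr k d m)) := by
        apply AddSubgroup.subset_closure
        rw [hS]; simp
      have : ((0, b, 0) : Gr k d m) = b.val • ((0, 1, 0) : Gr k d m) := by
        ext <;> simp
      rw [this]
      exact AddSubgroup.nsmul_mem _ h3 _
    have h3 : ((0, 0, c) : Gr k d m) ∈ AddSubgroup.closure (S : Set (Gr k d m)) := by
      have i0 : Fin k := 0
      have h4 : ((0, 0, 1) : Gr k d m) ∈ AddSubgroup.closure (S : Set (Gr k d m)) := by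
        have : ((0, 0, 1) : Gr k d m) = E i0 - m • E i0 := by
          rw [hmE]
          simp [hE]
        rw [this]
        exact AddSubgroup.sub_mem _ (hEmem i0) (AddSubgroup.nsmul_mem _ (hEmem i0) _)
      have : ((0, 0, c) : Gr k d m) = c.val • ((0, 0, 1) : Gr k d m) := by
        ext <;> simp
      rw [this]
      exact AddSubgroup.nsmul_mem _ h4 _
    have : ((v, b, c) : Gr k d m) = (v, 0, 0) + (0, b, 0) + (0, 0, c) := by simp
    rw [this]
    exact AddSubgroup.add_mem _ (AddSubgroup.add_mem _ h1 h2) h3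
  have hord1 : addOrderOf ((0, 1, 0) : Gr k d m) = d := by
    rw [Prod.addOrderOf, Prod.addOrderOf]
    simp [ZMod.addOrderOf_one]
  have hord2 : ∀ i, d ≤ addOrderOf (E i) := by
    intro i
    have h0 : 0 < addOrderOf (E i) := addOrderOf_pos _
    have h1 : m ∣ addOrderOf (E i) := by
      rw [hE]
      simp only
      rw [Prod.addOrderOf, Prod.addOrderOf, ZMod.addOrderOf_one]
      exact (Nat.dvd_lcm_right _ _).trans (Nat.dvd_lcm_right _ _)
    have := Nat.le_of_dvd h0 h1
    omega
  refine ⟨Gr k d m, inferInstance, inferInstance, inferInstance, S, Finset.univ, 1, hclos,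
    ⟨⟨(0, 1, 0), by rw [hS]; simp, hord1⟩, ?_⟩, one_pos, le_refl _, Finset.univ_nonempty, ?_, ?_⟩
  · rintro _ ⟨x, hx, rfl⟩
    rw [hS] at hx
    simp only [Finset.coe_insert, Finset.coe_image, Finset.coe_univ, Set.image_univ,
      Set.mem_insert_iff, Set.mem_range] at hx
    rcases hx with rfl | ⟨i, rfl⟩
    · exact hord1.ge
    · exact hord2 i
  · simp [edgeBoundary]
  · have hrank := rank_ge k d m
    have hcard : (Finset.univ : Finset (Gr k d m)).card = 2 ^ k * (d * m) := by
      simp [Gr, ZMod.card]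
    rw [hcard]
    have hdm : d * m < 2 ^ (d * m) := Nat.lt_two_pow_self
    have hd0 : (3 : ℝ) ≤ d := by exact_mod_cast hd
    have h43 : (2 : ℝ) / 3 ≤ 1 - 1 / (d : ℝ) := by
      have : 1 / (d : ℝ) ≤ 1 / 3 := by
        apply one_div_le_one_div_of_le (by norm_num) hd0
      linarith
    have hr : (k : ℝ) ≤ (AddGroup.rank (Gr k d m) : ℝ) := by exact_mod_cast hrank
    have hk0 : (0 : ℝ) ≤ k := Nat.cast_nonneg k
    calc (((2 ^ k * (d * m) : ℕ)) : ℝ) < ((2 ^ k * 2 ^ (d * m) : ℕ) : ℝ) := by
          exact_mod_cast Nat.mul_lt_mul_of_pos_left hdm (by positivity)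
      _ = (2 : ℝ) ^ ((k + d * m : ℕ) : ℝ) := by
          rw [Real.rpow_natCast]; push_cast; rw [pow_add]
      _ = (4 : ℝ) ^ ((2 / 3 : ℝ) * k) := by
          have h4 : (4 : ℝ) = 2 ^ (2 : ℝ) := by norm_num
          rw [h4, ← Real.rpow_mul (by norm_num)]
          congr 1
          rw [hk]; push_cast; ring
      _ ≤ (4 : ℝ) ^ ((1 - 1 / (d : ℝ)) * 1 * (AddGroup.rank (Gr k d m) : ℝ)) := by
          apply Real.rpow_le_rpow_of_exponent_le (by norm_num)
          rw [mul_one]
          apply mul_le_mul h43 hr hk0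
          linarith

end Pool.Agent.Results.MP_039f74_co.Disproof
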